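import Mathlib
import Pool.Agent.Work.MP_787500_nt.QG.Gen3
import Pool.Agent.Work.MP_787500_nt.ER.FDefs

/-!
# SF/EvenW (size S-M): a conjugate self-dual representation that is semistable at the primes dividing `D` has even dimension

Take a prime divisor `l` of `D` (`D % 8 = 7`). As at the beginning of the proof of `QG.main_gen4` (QG/Gen4.lean): `exists_n0`, `QU.exists_inst.{u, v} hK hc hκ hNF hκN`,
`T' = T ∪ T₁ ∪ D.primeFactors`, `exists_primes` (with `P₀` any prime over 2, `HP.prime_over_nat`), so `I : Inst ..` and `I.theta` gives `θ`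
with `iK K θ * c ∈ inr (P l)`. As in `QG.alt_theta` (QG/Gen3.lean): `cyc θ = -1`, and `g = θ κ(θ)` is in the inertia group of `P l` (`iK K g = (iK K θ * c) * (iK K θ * c)`).
If `l ∈ T` then `P l = Q l` and `(ρ g - 1) ^ 2 = 0` by `hR`, otherwise `ρ g = 1` (`hρ.unram`, see `hunD` in Gen4). So `det (ρ g) = 1`
(unipotent: `det (1 + N)` with `N * N = 0`; for example `(ρ g).det ^ k = det (1 + k N)`.. or `Matrix.det_one_add_smul`..; simplest: the
matrix `N` is nilpotent, so the characteristic polynomial of `N` is `X ^ n` (`Matrix.isNilpotent_charpoly_sub_pow_of_isNilpotent`, reduced ring), evaluate at `-1`).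
The duality `hρ.dual θ` gives `det (ρ θ) * det b * det (ρ (κ θ)) = (-1) ^ n * det b`, so `(-1) ^ n = 1` in `E` (characteristic zero), `n` is even.
-/

set_option autoImplicit false
set_option linter.unusedSectionVars false

namespace Pool.Agent.Work.MP_787500_nt.SF

open Matrix NumberField
open Pool.Agent.Work.MP_787500_nt.PA (cyc toE)
open Pool.Agent.Work.MP_787500_nt.GP (inT)
open Pool.Agent.Work.MP_787500_nt.HP (IsQ)

universe u v

variable {K : Type u} [Field K] [NumberField K] {D : ℕ} {s : K}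
  {c : AlgebraicClosure K ≃+* AlgebraicClosure K} {κ : AbsGal K →* AbsGal K}

open Pool.Agent.Work.MP_787500_nt.HP (Spl IsP inr cyQ) in
open Pool.Agent.Work.MP_787500_nt.KS (iK) in
private theorem cyc_theta {c : AlgebraicClosure K ≃+* AlgebraicClosure K} (hcy : cyQ c = -1)
    {Q : Ideal (𝓞 (AlgebraicClosure K))} (hQ : Q.IsPrime) (h2 : (2 : 𝓞 (AlgebraicClosure K)) ∉ Q)
    {θ : AbsGal K} (hθ : iK K θ * c ∈ inr Q) : cyc θ = -1 := by
  have h3 : cyQ (iK K θ * c) = 1 := HP.cyQ_inr hQ h2 hθ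
  have h4 : cyQ (iK K θ * c) = cyQ (iK K θ) * cyQ c := by
    unfold HP.cyQ
    rw [map_mul, Units.val_mul]
  rw [h4, hcy, HP.cyQ_emb] at h3
  linear_combination -h3

open Pool.Agent.Work.MP_787500_nt.HP (Spl IsP inr cyQ) in
open Pool.Agent.Work.MP_787500_nt.KS (iK) in
private theorem iK_sq (X : QS.Two (iK K) c κ) (θ : AbsGal K) :
    iK K (θ * κ θ) = (iK K θ * c) * (iK K θ * c) := by
  rw [map_mul, X.kap]
  group

private theorem det_unip {E : Type v} [Field E] {n : ℕ} {M : Matrix (Fin n) (Fin n) E}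
    (h : (M - 1) * (M - 1) = 0) : M.det = 1 := by
  have h1 : IsNilpotent (1 - M) := ⟨2, by
    have h2 : (1 - M) ^ 2 = (M - 1) * (M - 1) := by noncomm_ring
    rw [h2, h]⟩
  have h3 := Matrix.isNilpotent_charpoly_sub_pow_of_isNilpotent h1
  have h4 : (1 - M).charpoly - Polynomial.X ^ (Fintype.card (Fin n)) = 0 := h3.eq_zero
  have h5 := congrArg (Polynomial.eval 1) h4
  rw [Polynomial.eval_sub, Matrix.eval_charpoly, Polynomial.eval_pow, Polynomial.eval_X, one_pow,
    Polynomial.eval_zero, sub_eq_zero] at h5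
  rw [← h5]
  congr 1
  rw [map_one]
  abel

theorem even_dim (hK : IsQ K D s) (hc : PA.IsConj s c)
    (hκ : ∀ (σ : AbsGal K) (x : AlgebraicClosure K), κ σ x = c (σ (c x)))
    {T : Finset ℕ} (hT : ∀ l ∈ T, l.Prime ∧ l ≠ 2) {Q : ℕ → Ideal (𝓞 (AlgebraicClosure K))}
    (hQ : ∀ l ∈ T, (Q l).IsPrime ∧ (l : 𝓞 (AlgebraicClosure K)) ∈ Q l)
    {E : Type v} [NormedField E] [NormedAlgebra ℚ_[2] E] [FiniteDimensional ℚ_[2] E] {n : ℕ}
    {ρ : AbsGal K →* Matrix (Fin n) (Fin n) E} {b : Matrix (Fin n) (Fin n) E} (hb : b.det ≠ 0)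
    (hρ : Parity.IsDualRep (inT K T) (Parity.cyclo E) κ ρ b)
    (hR : ∀ l ∈ T, l ∣ D → Parity.SemistableOn ((Q l).inertia (AbsGal K)) ρ) : Even n := by
  classical
  have hκκ : ∀ g, κ (κ g) = g := GA.kap_kap hc hκ
  have hodd : ∀ g : AbsGal K, (2 : ℤ_[2]) ∣ cyc g - 1 := PA.isChar_cyc.odd
  obtain ⟨N₀, hNn, hNF, hNo, hκN, hNI, hpro⟩ := QF.exists_n0 (KR.isFull_K T) (χ := cyc)
    PA.isChar_cyc.mul PA.isChar_cyc.one hodd hκκ hb hρ
  obtain ⟨T₁, hT₁, hex⟩ := QU.exists_inst.{u, v} hK hc hκ hNF hκN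
  have hTT : T ⊆ T ∪ T₁ ∪ D.primeFactors :=
    Finset.subset_union_left.trans Finset.subset_union_left
  have hTD : D.primeFactors ⊆ T ∪ T₁ ∪ D.primeFactors := Finset.subset_union_right
  have hT1 : T₁ ⊆ T ∪ T₁ ∪ D.primeFactors :=
    Finset.subset_union_right.trans Finset.subset_union_left
  obtain ⟨T', hT'⟩ : ∃ T', T' = T ∪ T₁ ∪ D.primeFactors := ⟨_, rfl⟩
  rw [← hT'] at hTT hTD hT1
  have hcase : ∀ l ∈ T', l ∈ T ∨ HP.Spl D l ∨ (l.Prime ∧ l ∣ D) := by
    intro l hl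
    rw [hT'] at hl
    rcases Finset.mem_union.1 hl with h | h
    · rcases Finset.mem_union.1 h with h | h
      · exact Or.inl h
      · exact Or.inr (Or.inl (hT₁ l h))
    · exact Or.inr (Or.inr ⟨Nat.prime_of_mem_primeFactors h, Nat.dvd_of_mem_primeFactors h⟩)
  have hprime : ∀ l ∈ T', l.Prime := fun l hl => by
    rcases hcase l hl with h | h | h
    · exact (hT l h).1
    · exact h.1
    · exact h.1
  have hodd' : ∀ l ∈ T', l ≠ 2 := fun l hl => by
    rcases hcase l hl with h | h | h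
    · exact (hT l h).2
    · exact h.2.1
    · rintro rfl
      have h4 := hK.mod
      have h5 := h.2
      omega
  obtain ⟨P₀, hP₀, hP2'⟩ := HP.prime_over_nat (Ω := AlgebraicClosure K) Nat.prime_two
  have hP2 : (2 : 𝓞 (AlgebraicClosure K)) ∈ P₀ := by exact_mod_cast hP2'
  obtain ⟨P, hP, h2, hPQ⟩ := QG.exists_primes hP₀ hP2 hprime hodd' hQ hTT
  obtain ⟨iv, ivF, -, tr, I⟩ := hex T' hTT hT1 hTD P hP
  obtain ⟨p, hp⟩ : D.primeFactors.Nonempty := by
    rw [Nat.nonempty_primeFactors]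
    have := hK.mod
    omega
  obtain ⟨θ, hθ⟩ := I.theta hp
  have hPp : (P p).IsPrime := hP.isPrime p (Or.inl (hTD hp))
  have h2n : (2 : 𝓞 (AlgebraicClosure K)) ∉ P p := I.two_not ⟨p, hTD hp⟩
  have hcy : cyc θ = -1 := cyc_theta I.chic hPp h2n hθ
  have hin : θ * κ θ ∈ (P p).inertia (AbsGal K) := by
    refine QW.emb_refl_inr.1 ?_
    rw [iK_sq I.isTwo]
    exact mul_mem hθ hθ
  have hsem : (ρ (θ * κ θ) - 1) * (ρ (θ * κ θ) - 1) = 0 := by
    by_cases hpT : p ∈ T
    · rw [hPQ p hpT] at hin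
      exact hR p hpT (Nat.dvd_of_mem_primeFactors hp) _ hin
    · rw [hρ.unram _ (HP.inertia_inT hP hTT (hTD hp) hpT hin), sub_self, mul_zero]
  have hdet : (ρ θ).det * (ρ (κ θ)).det = 1 := by
    have h3 := det_unip hsem
    rwa [map_mul, Matrix.det_mul] at h3
  have hd := congrArg Matrix.det (hρ.dual θ)
  rw [Matrix.det_mul, Matrix.det_mul, Matrix.det_transpose, Matrix.det_smul, Fintype.card_fin] at hd
  have hcE : Parity.cyclo E θ = -1 := by
    show toE E (cyc θ) = -1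
    rw [hcy]
    simp [toE]
  rw [hcE] at hd
  have h6 : ((-1 : E) ^ n) = 1 := by
    have h7 : ((-1 : E) ^ n) * b.det = 1 * b.det := by
      rw [← hd, ← hdet]
      ring
    exact mul_right_cancel₀ hb h7
  have hc0 : CharZero E := charZero_of_injective_algebraMap (algebraMap ℚ_[2] E).injective
  rcases Nat.even_or_odd n with h | h
  · exact h
  · rw [h.neg_one_pow] at h6
    exact absurd h6 (by norm_num)

end Pool.Agent.Work.MP_787500_nt.SF
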