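import Mathlib
import Pool.Agent.Work.MP_787500_nt.SH.RDefs

/-!
Parity of Bloch-Kato Selmer groups over `M = K F`, for an arbitrary number field `F`: definitions used in the statement of the
theorem. The other definitions are in `PA/ParityDefs.lean`, `GP/FinDefs.lean`, `HP/BKDefs.lean`, `QG/FDefs.lean`, `QX/FDefs.lean`,
`ER/FDefs.lean`, `RB/FDefs.lean`, `SH/FDefs.lean` and `SH/RDefs.lean`.
-/

set_option autoImplicit false

namespace Pool.Agent.Work.MP_787500_nt.SF

open Matrix

/-- The value in `E` of the 2-adic cyclotomic character at an automorphism of the field `Ω`. -/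
noncomputable def cycloAut (E : Type*) [NormedField E] [NormedAlgebra ℚ_[2] E] {Ω : Type*} [Field Ω]
    (c : Ω ≃+* Ω) : E :=
  algebraMap ℚ_[2] E (algebraMap ℤ_[2] ℚ_[2] (cyclotomicCharacter Ω 2 c : ℤ_[2]ˣ))

/-- `τ` is a continuous representation of `H` on `E ^ n`, trivial on the subset `I`, and `b` is the matrix of a bilinear form with
`b (τ σ x) (τ (κ σ) y) = χ σ * b x y` and `b y (τ c₂ x) = - x₀ * b x y`. (In the theorem `κ` is the conjugation by an automorphism `c`,
`c₂ = c²` and `x₀ = χ c`. If `c² = 1` then `χ c = -1` and `b` is symmetric. If `τ` is the restriction of a representation of the group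
generated by `H` and `c` with an alternating form `a` with `a (τ σ x) (τ σ y) = χ σ * a x y`, then `b x y = a x (τ c)⁻¹ y` has these
properties.) -/
structure IsDualF {H : Type*} [Group H] [TopologicalSpace H] {E : Type*} [NormedField E] {n : ℕ}
    (I : Set H) (χ : H → E) (κ : H → H) (c₂ : H) (x₀ : E) (τ : H →* Matrix (Fin n) (Fin n) E)
    (b : Matrix (Fin n) (Fin n) E) : Prop where
  cont : Continuous τ
  unram : ∀ σ ∈ I, τ σ = 1
  symm : b * τ c₂ = -x₀ • bᵀ
  dual : ∀ σ, (τ σ)ᵀ * b * τ (κ σ) = χ σ • b

open scoped Classical in
/-- The sum over `i` of the index of the group generated by `I i` and `D i ∩ H` in `D i`, times the dimension of the space of the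
vectors fixed by `I i ∩ H`, plus 1 if some `I i` does not have the property `CommInd`. (If `D i` and `I i` are the decomposition
groups and the inertia groups at representatives of the places of the extension over a prime, the index is the residue degree.) -/
noncomputable def condF {G : Type*} [Group G] {E : Type*} [NormedField E] {n : ℕ} (H : Subgroup G)
    (τ : H →* Matrix (Fin n) (Fin n) E) {Ψ : Type*} [Fintype Ψ] (D I : Ψ → Subgroup G) : ℕ :=
  ∑ i, (I i ⊔ (D i ⊓ H)).relIndex (D i) *
      Module.finrank E (Parity.fixedBy (fun σ : (I i).subgroupOf H => τ σ)) +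
    if ∀ i, SH.CommInd (I i) τ then 0 else 1

end Pool.Agent.Work.MP_787500_nt.SF
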