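import Mathlib
import Pool.Agent.Work.MP_787500_nt.SH.Defs

/-!
# Block SF (definitions, fixed, do not change)

Block monomial matrices; the representation induced from an open subgroup `H`, for an automorphism `k` of `H` that is the restriction of
`κ` followed by the conjugation by `g₀`.
-/

set_option autoImplicit false
set_option linter.unusedSectionVars false

namespace Pool.Agent.Work.MP_787500_nt.SF

open Matrix Polynomial

/-- polynomials with integral coefficients that are congruent modulo the maximal ideal -/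
structure Cg {E : Type*} [NormedField E] (P Q : E[X]) : Prop where
  left : ∀ i, ‖P.coeff i‖ ≤ 1
  right : ∀ i, ‖Q.coeff i‖ ≤ 1
  sub : ∀ i, ‖P.coeff i - Q.coeff i‖ < 1

section bm

variable {S R : Type*} {n : ℕ}

/-- the block monomial matrix with the blocks `U x` at the places `(x, σ⁻¹ x)` -/
def bm [DecidableEq S] [Zero R] (σ : Equiv.Perm S) (U : S → Matrix (Fin n) (Fin n) R) :
    Matrix (S × Fin n) (S × Fin n) R :=
  fun p q => if σ.symm p.1 = q.1 then U p.1 p.2 q.2 else 0

/-- `Reach σ U V x y M N`: for a path `x, σ⁻¹ x, σ⁻² x, .., y` the product of the matrices `U` from `x` to `y` is `M` and the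
product of the matrices `V` on the way back is `N` -/
inductive Reach [CommRing R] (σ : Equiv.Perm S) (U V : S → Matrix (Fin n) (Fin n) R) :
    S → S → Matrix (Fin n) (Fin n) R → Matrix (Fin n) (Fin n) R → Prop
  | base (x : S) : Reach σ U V x (σ.symm x) (U x) (V (σ.symm x))
  | step {x y : S} {M N : Matrix (Fin n) (Fin n) R} (h : Reach σ U V x y M N) :
      Reach σ U V x (σ.symm y) (M * U y) (V (σ.symm y) * N)

end bm

section tw

variable {G : Type*} [Group G] {H : Subgroup G} {E : Type*} [NormedField E] {n m : ℕ}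

/-- `κ` is an involution of `G`, `k h = g₀ κ(h) g₀⁻¹` for `h` in `H`, and `g₀ κ(g₀)` is in `H` -/
structure Tw (H : Subgroup G) (κ : G →* G) (g₀ : G) (k : H →* H) : Prop where
  inv : ∀ a, κ (κ a) = a
  coe : ∀ h : H, (k h : G) = g₀ * κ h * g₀⁻¹
  mem : g₀ * κ g₀ ∈ H

/-- the functions `a ↦ val f (κ(a) g₀⁻¹)` -/
def valT (κ : G →* G) (g₀ : G) (val : (Fin m → E) →ₗ[E] (G → Fin n → E)) :
    (Fin m → E) →ₗ[E] (G → Fin n → E) :=
  (LinearMap.funLeft E (Fin n → E) fun a => κ a * g₀⁻¹) ∘ₗ val

theorem valT_apply (κ : G →* G) (g₀ : G) (val : (Fin m → E) →ₗ[E] (G → Fin n → E)) (f : Fin m → E)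
    (a : G) : valT κ g₀ val f a = val f (κ a * g₀⁻¹) := rfl

open scoped Classical in
/-- the matrix of the form of the induced representation -/
noncomputable def indT (r : SH.Rep H n m) (κ : G →* G) (g₀ : G) (χ : G → E)
    (b : Matrix (Fin n) (Fin n) E) (τ : H →* Matrix (Fin n) (Fin n) E) :
    Matrix (Fin m) (Fin m) E :=
  fun p q => if ((κ (r.s (r.en.symm p).1) * g₀⁻¹ : G) : G ⧸ H) = (r.en.symm q).1 then
    χ (r.s (r.en.symm p).1) *
      (b * τ (r.ds (κ (r.s (r.en.symm p).1) * g₀⁻¹))) (r.en.symm p).2 (r.en.symm q).2 else 0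

end tw

end Pool.Agent.Work.MP_787500_nt.SF
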