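import Mathlib
import Pool.Agent.Work.MP_787500_nt.SF.Defs
import Pool.Agent.Work.MP_787500_nt.SH.IndC

/-!
# SF/IndB (size M): the form of the induced representation, twisted case

Twisted copies of the proofs of SH/IndA (`IsInd.kap`), SH/IndB and SH/IndC (`isDualRep_ind`), with `valT κ g₀ val` instead of `valK κ val`, `indT` instead of
`indF`.
* `isInd_kap`: `valT f (a h) = val f (κ(a) κ(h) g₀⁻¹) = val f (κ(a) g₀⁻¹ k(h))`. Surjectivity: for `F` equivariant take `a ↦ F (κ (a g₀))`, which is equivariant for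
  `τ` because `κ(a h g₀) = κ(a g₀) h'` with `h' = κ(g₀)⁻¹ κ(h) κ(g₀)` in `H` (`(g₀ κ(g₀))⁻¹ k(h) (g₀ κ(g₀))`) and `k h' = h`.
* `indForm_ind`: as in SH/IndB.
* `dual`, `det`: as in SH/IndB, for any `IndForm H χ b bW val val'` with `val'` for the representation `R ∘ κ`.
* symmetry: `B(f', f) = ∑ χ(x) b(f'(x), f(κ(x) g₀⁻¹))`; substitute `x = κ(z) g₀⁻¹` (representatives `κ(s(z)) g₀⁻¹`): `χ(x) = χ(z) χ(g₀)⁻¹`, `κ(x) g₀⁻¹ = z (g₀ κ(g₀))⁻¹`, `f (z (g₀ κ(g₀))⁻¹) = τ(g₀ κ(g₀)) f(z)`,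
  and `hs : b * τ (g₀ κ(g₀)) = χ(g₀) • bᵀ` gives `B(f', f) = B(f, f')`.
* `isDualRep_indT`: as in SH/IndC.
-/

set_option autoImplicit false
set_option linter.unusedSectionVars false

namespace Pool.Agent.Work.MP_787500_nt.SF

open Matrix
open Pool.Agent.Work.MP_787500_nt.SH (Rep IsInd IndForm indR indV isInd_ind)

section alg

variable {G : Type*} [Group G] {H : Subgroup G} {E : Type*} [NormedField E] {n m : ℕ}
  {r : Rep H n m} {τ : H →* Matrix (Fin n) (Fin n) E} {R : G →* Matrix (Fin m) (Fin m) E}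
  {val val' : (Fin m → E) →ₗ[E] (G → Fin n → E)} {κ : G →* G} {χ : G → E} {g₀ : G} {k : H →* H}
  {b : Matrix (Fin n) (Fin n) E} {bW : Matrix (Fin m) (Fin m) E}

theorem isInd_kap (hI : IsInd τ R val) (t : Tw H κ g₀ k) :
    IsInd (τ.comp k) (R.comp κ) (valT κ g₀ val) where
  eqv := by
    intro f a h
    have h1 : κ (a * h) * g₀⁻¹ = κ a * g₀⁻¹ * (k h : G) := by
      rw [t.coe, map_mul]
      group
    rw [valT_apply, valT_apply, h1]
    exact hI.eqv f (κ a * g₀⁻¹) (k h)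
  act := by
    intro g f a
    rw [valT_apply, valT_apply, MonoidHom.comp_apply, hI.act, map_mul, map_inv, mul_assoc]
  surj := by
    intro F hF
    have h1 : SH.Eqv τ (fun c => F (κ (c * g₀))) := by
      intro c h
      have hm : κ (g₀⁻¹ * h * g₀) ∈ H := by
        have e : κ (g₀⁻¹ * h * g₀) = (g₀ * κ g₀)⁻¹ * (k h : G) * (g₀ * κ g₀) := by
          rw [t.coe, map_mul, map_mul, map_inv]
          group
        rw [e]
        exact H.mul_mem (H.mul_mem (H.inv_mem t.mem) (k h).2) t.mem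
      have h2 := hF (κ (c * g₀)) ⟨κ (g₀⁻¹ * h * g₀), hm⟩
      have h3 : k ⟨κ (g₀⁻¹ * h * g₀), hm⟩ = h := by
        apply Subtype.ext
        rw [t.coe]
        show g₀ * κ (κ (g₀⁻¹ * h * g₀)) * g₀⁻¹ = h
        rw [t.inv]
        group
      rw [MonoidHom.comp_apply, h3] at h2
      have h4 : κ (c * g₀) * κ (g₀⁻¹ * h * g₀) = κ (c * h * g₀) := by
        rw [← map_mul]
        congr 1
        group
      have h5 : κ (c * g₀) * ((⟨κ (g₀⁻¹ * h * g₀), hm⟩ : H) : G) = κ (c * h * g₀) := h4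
      rw [h5] at h2
      exact h2
    obtain ⟨f, hf⟩ := hI.surj _ h1
    refine ⟨f, ?_⟩
    funext a
    rw [valT_apply, hf]
    show F (κ (κ a * g₀⁻¹ * g₀)) = F a
    rw [inv_mul_cancel_right, t.inv]
  emb := by
    have h1 : Function.LeftInverse (fun (F : G → Fin n → E) (c : G) => F (κ (c * g₀)))
        (fun (F : G → Fin n → E) (a : G) => F (κ a * g₀⁻¹)) := by
      intro F
      funext c
      show F (κ (κ (c * g₀)) * g₀⁻¹) = F c
      rw [t.inv, mul_inv_cancel_right]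
    have hc1 : Continuous (fun (F : G → Fin n → E) (c : G) => F (κ (c * g₀))) :=
      continuous_pi fun a => continuous_apply _
    have hc2 : Continuous (fun (F : G → Fin n → E) (a : G) => F (κ a * g₀⁻¹)) :=
      continuous_pi fun a => continuous_apply _
    exact (h1.isEmbedding hc1 hc2).comp hI.emb

private theorem ext_form {j : ℕ} {M N : Matrix (Fin j) (Fin j) E}
    (h : ∀ f f' : Fin j → E, f ⬝ᵥ (M *ᵥ f') = f ⬝ᵥ (N *ᵥ f')) : M = N := by
  ext i l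
  have := h (Pi.single i 1) (Pi.single l 1)
  simpa using this

/-- the summand is constant on the cosets -/
private theorem summand_inv {R' : G →* Matrix (Fin m) (Fin m) E} (hI : IsInd τ R val)
    (hI' : IsInd (τ.comp k) R' val') (hχ1 : χ 1 = 1)
    (hχ : ∀ a a', χ (a * a') = χ a * χ a')
    (hd : ∀ h : H, (τ h)ᵀ * b * τ (k h) = χ h • b) (f f' : Fin m → E) (a : G) (h : H) :
    χ (a * h) * (val f (a * h) ⬝ᵥ (b *ᵥ val' f' (a * h))) =
      χ a * (val f a ⬝ᵥ (b *ᵥ val' f' a)) := by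
  have h1 : val' f' (a * h) = τ (k h⁻¹) *ᵥ val' f' a := hI'.mul_right f' a h
  have h2 := hI.mul_right f a h
  have h3 : (τ h⁻¹ *ᵥ val f a) ⬝ᵥ (b *ᵥ (τ (k h⁻¹) *ᵥ val' f' a)) =
      χ ((h⁻¹ : H) : G) * (val f a ⬝ᵥ (b *ᵥ val' f' a)) := by
    have h4 := hd h⁻¹
    calc (τ h⁻¹ *ᵥ val f a) ⬝ᵥ (b *ᵥ (τ (k h⁻¹) *ᵥ val' f' a))
        = val f a ⬝ᵥ (((τ h⁻¹)ᵀ * b * τ (k h⁻¹)) *ᵥ val' f' a) := by
          rw [← mulVec_mulVec, ← mulVec_mulVec, dotProduct_mulVec (val f a), vecMul_transpose]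
      _ = _ := by
          rw [h4, smul_mulVec, dotProduct_smul, smul_eq_mul]
  rw [h1, h2, h3, hχ]
  have h5 : χ (h : G) * χ ((h⁻¹ : H) : G) = 1 := by
    rw [← hχ, ← hχ1]
    congr 1
    rw [Subgroup.coe_inv, mul_inv_cancel]
  calc χ a * χ (h : G) * (χ ((h⁻¹ : H) : G) * (val f a ⬝ᵥ (b *ᵥ val' f' a)))
      = χ a * (χ (h : G) * χ ((h⁻¹ : H) : G)) * (val f a ⬝ᵥ (b *ᵥ val' f' a)) := by ring
    _ = _ := by rw [h5, mul_one]

theorem indForm_ind [Fintype (G ⧸ H)] (t : Tw H κ g₀ k) (hχ1 : χ 1 = 1)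
    (hχ : ∀ a a', χ (a * a') = χ a * χ a')
    (hd : ∀ h : H, (τ h)ᵀ * b * τ (k h) = χ h • b) :
    IndForm H χ b (indT r κ g₀ χ b τ) (indV r τ) (valT κ g₀ (indV r τ)) := by
  have hI : IsInd τ (indR r τ) (indV r τ) := isInd_ind r τ
  have hI' : IsInd (τ.comp k) ((indR r τ).comp κ) (valT κ g₀ (indV r τ)) := isInd_kap hI t
  intro s hs f f'
  have key : ∀ x : G ⧸ H, χ (s x) * (indV r τ f (s x) ⬝ᵥ (b *ᵥ valT κ g₀ (indV r τ) f' (s x))) =
      χ (r.s x) * (indV r τ f (r.s x) ⬝ᵥ (b *ᵥ valT κ g₀ (indV r τ) f' (r.s x))) := by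
    intro x
    have h1 : ((r.s x : G) : G ⧸ H) = (s x : G ⧸ H) := by rw [r.hs, hs]
    have h2 := QuotientGroup.eq.1 h1
    have h3 : s x = r.s x * ((⟨(r.s x)⁻¹ * s x, h2⟩ : H) : G) := by
      simp
    rw [h3]
    exact summand_inv hI hI' hχ1 hχ hd f f' (r.s x) _
  rw [Finset.sum_congr rfl fun x _ => key x]
  -- the left side
  have hL : f ⬝ᵥ (indT r κ g₀ χ b τ *ᵥ f') = ∑ x : G ⧸ H, ∑ i : Fin n, f (r.en (x, i)) *
      (indT r κ g₀ χ b τ *ᵥ f') (r.en (x, i)) := by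
    unfold dotProduct
    rw [← Equiv.sum_comp r.en, Fintype.sum_prod_type]
  rw [hL]
  refine Finset.sum_congr rfl fun x _ => ?_
  rw [SH.indV_s, valT_apply]
  have hM : ∀ i : Fin n, (indT r κ g₀ χ b τ *ᵥ f') (r.en (x, i)) =
      χ (r.s x) * (b *ᵥ (indV r τ f' (κ (r.s x) * g₀⁻¹))) i := by
    intro i
    have h1 : (indT r κ g₀ χ b τ *ᵥ f') (r.en (x, i)) =
        ∑ y : G ⧸ H, ∑ l : Fin n, indT r κ g₀ χ b τ (r.en (x, i)) (r.en (y, l)) *
          f' (r.en (y, l)) := by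
      unfold mulVec dotProduct
      rw [← Equiv.sum_comp r.en, Fintype.sum_prod_type]
    rw [h1, Finset.sum_eq_single ((κ (r.s x) * g₀⁻¹ : G) : G ⧸ H)]
    · have h2 : indV r τ f' (κ (r.s x) * g₀⁻¹) = τ (r.ds (κ (r.s x) * g₀⁻¹)) *ᵥ
          fun l => f' (r.en (((κ (r.s x) * g₀⁻¹ : G) : G ⧸ H), l)) := rfl
      rw [h2, mulVec_mulVec]
      unfold mulVec dotProduct
      rw [Finset.mul_sum]
      refine Finset.sum_congr rfl fun l _ => ?_
      unfold indT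
      simp only [Equiv.symm_apply_apply, if_true]
      ring
    · intro y _ hy
      refine Finset.sum_eq_zero fun l _ => ?_
      unfold indT
      simp only [Equiv.symm_apply_apply]
      rw [if_neg (fun h => hy (by simpa using h.symm)), zero_mul]
    · intro h
      exact absurd (Finset.mem_univ _) h
  unfold dotProduct
  rw [Finset.mul_sum]
  refine Finset.sum_congr rfl fun i _ => ?_
  rw [hM i]
  ring

theorem indForm_det [Fintype (G ⧸ H)] {τ' : H →* Matrix (Fin n) (Fin n) E}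
    {R' : G →* Matrix (Fin m) (Fin m) E} (hF : IndForm H χ b bW val val') (hI : IsInd τ R val)
    (hI' : IsInd τ' R' val') (hχ1 : χ 1 = 1) (hχ : ∀ a a', χ (a * a') = χ a * χ a')
    (hb : b.det ≠ 0) : bW.det ≠ 0 := by
  classical
  intro h0
  obtain ⟨f', hf', hf'0⟩ := Matrix.exists_mulVec_eq_zero_iff.2 h0
  apply hf'
  have hkey : ∀ a : G, val' f' a = 0 := by
    intro a
    by_contra hne
    have h1 : b *ᵥ val' f' a = 0 := by
      refine dotProduct_eq_zero _ fun v => ?_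
      rw [dotProduct_comm]
      obtain ⟨f, hfa, hf0⟩ := hI.single a v
      set s : G ⧸ H → G := fun x => if x = (a : G ⧸ H) then a else x.out with hsdef
      have hs : ∀ x : G ⧸ H, ((s x : G) : G ⧸ H) = x := by
        intro x
        rw [hsdef]
        dsimp only
        split_ifs with h
        · exact h.symm
        · exact QuotientGroup.out_eq' x
      have h2 := hF s hs f f'
      rw [hf'0, dotProduct_zero, Finset.sum_eq_single (a : G ⧸ H)] at h2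
      · have hsa : s (a : G ⧸ H) = a := by rw [hsdef]; simp
        rw [hsa, hfa] at h2
        have h3 : χ a ≠ 0 := by
          intro hz
          have := hχ a a⁻¹
          rw [mul_inv_cancel, hχ1, hz, zero_mul] at this
          exact one_ne_zero this
        exact (mul_eq_zero.1 h2.symm).resolve_left h3
      · intro x _ hx
        have : val f (s x) = 0 := by
          apply hf0
          intro hmem
          apply hx
          rw [← hs x]
          exact (QuotientGroup.eq.2 hmem).symm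
        rw [this, zero_dotProduct, mul_zero]
      · intro h
        exact absurd (Finset.mem_univ _) h
    exact hb (Matrix.exists_mulVec_eq_zero_iff.1 ⟨_, hne, h1⟩)
  have h4 : val' f' = val' 0 := by
    rw [map_zero]
    funext a
    exact hkey a
  exact hI'.emb.injective h4

private theorem form_dual [Fintype (G ⧸ H)] {τ' : H →* Matrix (Fin n) (Fin n) E}
    (hF : IndForm H χ b bW val val') (hI : IsInd τ R val)
    (hI' : IsInd τ' (R.comp κ) val') (hχ1 : χ 1 = 1)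
    (hχ : ∀ a a', χ (a * a') = χ a * χ a') (g : G) : (R g)ᵀ * bW * R (κ g) = χ g • bW := by
  refine ext_form fun f f' => ?_
  have h1 : f ⬝ᵥ (((R g)ᵀ * bW * R (κ g)) *ᵥ f') = (R g *ᵥ f) ⬝ᵥ (bW *ᵥ (R (κ g) *ᵥ f')) := by
    rw [← mulVec_mulVec, ← mulVec_mulVec, dotProduct_mulVec f, vecMul_transpose]
  have hs : ∀ x : G ⧸ H, ((x.out : G) : G ⧸ H) = x := fun x => QuotientGroup.out_eq' x
  have hs' : ∀ x : G ⧸ H, ((g⁻¹ * (g • x).out : G) : G ⧸ H) = x := by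
    intro x
    show g⁻¹ • (((g • x).out : G) : G ⧸ H) = x
    rw [hs, inv_smul_smul]
  have hact : ∀ a : G, val' (R (κ g) *ᵥ f') a = val' f' (g⁻¹ * a) := fun a => hI'.act g f' a
  rw [h1, hF (fun x => x.out) hs, smul_mulVec, dotProduct_smul, smul_eq_mul,
    hF (fun x => g⁻¹ * (g • x).out) hs', Finset.mul_sum]
  rw [← Equiv.sum_comp (MulAction.toPerm g : Equiv.Perm (G ⧸ H))]
  refine Finset.sum_congr rfl fun x _ => ?_
  simp only [MulAction.toPerm_apply]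
  rw [hI.act, hact]
  have h2 : χ ((g • x).out) = χ g * χ (g⁻¹ * (g • x).out) := by
    rw [← hχ, mul_inv_cancel_left]
  rw [h2]
  ring

section kq

private noncomputable def kQ (H : Subgroup G) (κ : G →* G) (g₀ : G) (x : G ⧸ H) : G ⧸ H :=
  ((κ x.out * g₀⁻¹ : G) : G ⧸ H)

private theorem kQ_mk (t : Tw H κ g₀ k) (a : G) :
    kQ H κ g₀ (a : G ⧸ H) = ((κ a * g₀⁻¹ : G) : G ⧸ H) := by
  obtain ⟨h, hh⟩ := QuotientGroup.mk_out_eq_mul H a
  unfold kQ
  rw [hh, map_mul]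
  refine (QuotientGroup.eq.2 ?_).symm
  have e : (κ a * g₀⁻¹)⁻¹ * (κ a * κ h * g₀⁻¹) = (k h : G) := by
    rw [t.coe]
    group
  rw [e]
  exact (k h).2

private theorem kQ_kQ (t : Tw H κ g₀ k) : Function.Involutive (kQ H κ g₀) := by
  intro x
  have h1 : kQ H κ g₀ x = ((κ x.out * g₀⁻¹ : G) : G ⧸ H) := rfl
  rw [h1, kQ_mk t, map_mul, t.inv, map_inv]
  have h2 : ((x.out : G) : G ⧸ H) = x := QuotientGroup.out_eq' x
  conv_rhs => rw [← h2]
  refine (QuotientGroup.eq.2 ?_).symm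
  have e : (x.out : G)⁻¹ * (x.out * (κ g₀)⁻¹ * g₀⁻¹) = (g₀ * κ g₀)⁻¹ := by
    group
  rw [e]
  exact H.inv_mem t.mem

end kq

private theorem form_symm [Fintype (G ⧸ H)] (hF : IndForm H χ b bW val (valT κ g₀ val))
    (hI : IsInd τ R val) (t : Tw H κ g₀ k) (hχ1 : χ 1 = 1)
    (hχ : ∀ a a', χ (a * a') = χ a * χ a') (hχκ : ∀ a, χ (κ a) = χ a)
    (hs : b * τ ⟨g₀ * κ g₀, t.mem⟩ = χ g₀ • bᵀ) : bWᵀ = bW := by
  refine ext_form fun f f' => ?_
  have hr : ∀ x : G ⧸ H, ((x.out : G) : G ⧸ H) = x := fun x => QuotientGroup.out_eq' x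
  have hr' : ∀ x : G ⧸ H, ((κ (kQ H κ g₀ x).out * g₀⁻¹ : G) : G ⧸ H) = x := by
    intro x
    rw [← kQ_mk t, hr, kQ_kQ t]
  have h1 : f ⬝ᵥ (bWᵀ *ᵥ f') = f' ⬝ᵥ (bW *ᵥ f) := by
    rw [dotProduct_mulVec, vecMul_transpose, dotProduct_comm]
  have hne : χ g₀ ≠ 0 := by
    intro hz
    have := hχ g₀ g₀⁻¹
    rw [mul_inv_cancel, hχ1, hz, zero_mul] at this
    exact one_ne_zero this
  rw [h1, hF (fun x => x.out) hr, hF (fun x => κ (kQ H κ g₀ x).out * g₀⁻¹) hr',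
    ← Equiv.sum_comp (Function.Involutive.toPerm _ (kQ_kQ t))]
  refine Finset.sum_congr rfl fun x _ => ?_
  simp only [Function.Involutive.coe_toPerm]
  generalize (kQ H κ g₀ x).out = z
  rw [valT_apply, valT_apply]
  have e1 : κ (κ z * g₀⁻¹) * g₀⁻¹ = z * (((⟨g₀ * κ g₀, t.mem⟩ : H)⁻¹ : H) : G) := by
    rw [map_mul, t.inv, map_inv]
    show z * (κ g₀)⁻¹ * g₀⁻¹ = z * (g₀ * κ g₀)⁻¹
    group
  rw [e1, hI.mul_right, inv_inv]
  have e2 : χ (κ z * g₀⁻¹) = χ z * (χ g₀)⁻¹ := by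
    rw [hχ, hχκ]
    congr 1
    have h5 : χ g₀ * χ g₀⁻¹ = 1 := by
      rw [← hχ, mul_inv_cancel, hχ1]
    exact (eq_inv_of_mul_eq_one_right h5)
  rw [e2, mulVec_mulVec, hs, smul_mulVec, dotProduct_smul, smul_eq_mul]
  have e3 : val f (κ z * g₀⁻¹) ⬝ᵥ (bᵀ *ᵥ val f' z) =
      val f' z ⬝ᵥ (b *ᵥ val f (κ z * g₀⁻¹)) := by
    rw [dotProduct_mulVec, vecMul_transpose, dotProduct_comm]
  rw [e3]
  field_simp

end alg

variable {G : Type*} [Group G] [TopologicalSpace G] [IsTopologicalGroup G] {H : Subgroup G}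
  {E : Type*} [NormedField E] {n m : ℕ}
  {r : Rep H n m} {τ : H →* Matrix (Fin n) (Fin n) E} {κ : G →* G} {χ : G → E} {g₀ : G}
  {k : H →* H} {b : Matrix (Fin n) (Fin n) E}

theorem isDualRep_indT [Fintype (G ⧸ H)] (hH : IsOpen (H : Set G)) (t : Tw H κ g₀ k)
    (hχ1 : χ 1 = 1) (hχ : ∀ a a', χ (a * a') = χ a * χ a') (hχκ : ∀ a, χ (κ a) = χ a)
    {I : Set G} (hI : ∀ σ ∈ I, ∀ a, a⁻¹ * σ * a ∈ I) (hIH : ∀ σ ∈ I, σ ∈ H)
    (hc : Continuous τ) (hu : ∀ h : H, (h : G) ∈ I → τ h = 1)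
    (hs : b * τ ⟨g₀ * κ g₀, t.mem⟩ = χ g₀ • bᵀ)
    (hd : ∀ h : H, (τ h)ᵀ * b * τ (k h) = χ h • b) :
    Parity.IsDualRep I χ κ (indR r τ) (indT r κ g₀ χ b τ) := by
  have hF : IndForm H χ b (indT r κ g₀ χ b τ) (indV r τ) (valT κ g₀ (indV r τ)) :=
    indForm_ind t hχ1 hχ hd
  have hInd : IsInd τ (indR r τ) (indV r τ) := isInd_ind r τ
  have hInd' : IsInd (τ.comp k) ((indR r τ).comp κ) (valT κ g₀ (indV r τ)) := isInd_kap hInd t
  refine ⟨SH.continuous_indM hH hc, ?_, form_symm hF hInd t hχ1 hχ hχκ hs,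
    form_dual hF hInd hInd' hχ1 hχ⟩
  intro σ hσ
  apply Matrix.mulVec_injective
  funext f
  rw [one_mulVec, SH.indR_apply]
  funext p
  obtain ⟨⟨x, i⟩, rfl⟩ := r.en.surjective p
  rw [SH.indM_vec]
  have h1 : (r.s x)⁻¹ * σ * r.s x ∈ I := hI σ hσ _
  have h2 : σ⁻¹ • x = x := by
    have h3 : ((r.s x : G) : G ⧸ H) = ((σ * r.s x : G) : G ⧸ H) := by
      apply QuotientGroup.eq.2
      rw [← mul_assoc]
      exact hIH _ h1
    rw [r.hs] at h3
    have h4 : x = σ • x := by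
      conv_lhs => rw [h3]
      show ((σ * r.s x : G) : G ⧸ H) = σ • x
      conv_rhs => rw [← r.hs x]
      rfl
    calc σ⁻¹ • x = σ⁻¹ • (σ • x) := by rw [← h4]
      _ = x := inv_smul_smul _ _
  have h5 : τ (r.rs σ x) = 1 := by
    apply hu
    show ((r.rs σ x : H) : G) ∈ I
    simp only [SH.Rep.rs, h2]
    exact h1
  rw [h5, one_mulVec, h2]

end Pool.Agent.Work.MP_787500_nt.SF
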