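import Mathlib
import Pool.Agent.Work.MP_787500_nt.SF.Defs
import Pool.Agent.Work.MP_787500_nt.RB.Om

/-!
# SF/Bdd (size S-M): the characteristic polynomial of a matrix with bounded powers has integral coefficients

Over an algebraically closed `Ω` (RB/Om: `exists_omega E` gives a normed algebraically closed field with `ι : E → Ω`, `norm_map_eq`: `ι`
preserves the norm) the characteristic polynomial is the product of the `X - λ` for its roots `λ` (`IsAlgClosed.splits`,
`Polynomial.Splits` / `eq_prod_roots_of_monic_of_splits_id`, `Matrix.charpoly_monic`), and every root has an eigenvector `v ≠ 0`,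
`M ^ k v = λ ^ k v`, so `‖λ‖ ^ k ‖v‖ ≤ n R ‖v‖` for all `k`, hence `‖λ‖ ≤ 1`. A product of polynomials `X - λ` with `‖λ‖ ≤ 1` has
coefficients of norm at most 1 (ultrametric; e.g. all factors are in the image of the polynomials over the subring of the elements of
norm at most 1, `Polynomial.lifts`). Alternatively any other proof (for example with the stable lattice of the vectors `x` with
`‖M ^ k x‖ ≤ 1` for all `k`).
-/

set_option autoImplicit false
set_option linter.unusedSectionVars false

namespace Pool.Agent.Work.MP_787500_nt.SF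

open Matrix

theorem coeff_le {E : Type*} [NormedField E] [NormedAlgebra ℚ_[2] E] [FiniteDimensional ℚ_[2] E]
    {n : ℕ} {M : Matrix (Fin n) (Fin n) E} {R : ℝ} (h : ∀ (k : ℕ) (i j : Fin n), ‖(M ^ k) i j‖ ≤ R)
    (i : ℕ) : ‖M.charpoly.coeff i‖ ≤ 1 := by
  have hE : Algebra.IsAlgebraic ℚ_[2] E := Algebra.IsAlgebraic.of_finite ℚ_[2] E
  obtain ⟨Ω, iN, iA, ι, k, ik, rd, hA, hC, -, -, -⟩ := RB.exists_omega E
  have hn : ∀ x, ‖ι x‖ = ‖x‖ := RB.norm_map_eq ι
  have hroot : ∀ a ∈ (M.map ι).charpoly.roots, ‖a‖ ≤ 1 := by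
    intro a ha
    have h1 : (M.map ι).charpoly.eval a = 0 :=
      (Polynomial.mem_roots (Matrix.charpoly_monic _).ne_zero).1 ha
    rw [Matrix.eval_charpoly] at h1
    obtain ⟨v, hv0, hv⟩ := Matrix.exists_mulVec_eq_zero_iff.2 h1
    have h2 : M.map ι *ᵥ v = a • v := by
      rw [Matrix.sub_mulVec, sub_eq_zero] at hv
      rw [← hv, Matrix.scalar_apply, ← Matrix.smul_one_eq_diagonal, Matrix.smul_mulVec,
        Matrix.one_mulVec]
    have h3 : ∀ m : ℕ, (M ^ m).map ι *ᵥ v = a ^ m • v := by
      intro m
      have h4 : (M ^ m).map ι = (M.map ι) ^ m := by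
        have h5 := map_pow (RingHom.mapMatrix (m := Fin n) (ι : E →+* Ω)) M m
        exact h5
      rw [h4]
      induction m with
      | zero => rw [pow_zero, pow_zero, Matrix.one_mulVec, one_smul]
      | succ m ih =>
        have h5 : (M ^ m).map ι = (M.map ι) ^ m := by
          have h6 := map_pow (RingHom.mapMatrix (m := Fin n) (ι : E →+* Ω)) M m
          exact h6
        rw [pow_succ, ← Matrix.mulVec_mulVec, h2, Matrix.mulVec_smul, ih h5, smul_smul, pow_succ,
          mul_comm]
    have hvp : 0 < ‖v‖ := norm_pos_iff.2 hv0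
    have h4 : ∀ m : ℕ, ‖a‖ ^ m ≤ n * R := by
      intro m
      have h5 : ‖a ^ m • v‖ ≤ n * R * ‖v‖ := by
        have hR : 0 ≤ R := by
          by_contra hR
          have hn0 : ∀ i j : Fin n, False := fun i j =>
            hR ((norm_nonneg _).trans (h 0 i j))
          have h6 : v = 0 := by
            funext i
            exact (hn0 i i).elim
          exact hv0 h6
        rw [← h3 m, pi_norm_le_iff_of_nonneg (by positivity)]
        intro i
        have h6 : ((M ^ m).map ι *ᵥ v) i = ∑ j, ι ((M ^ m) i j) * v j := rfl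
        rw [h6]
        refine (norm_sum_le _ _).trans ?_
        calc ∑ j, ‖ι ((M ^ m) i j) * v j‖ ≤ ∑ j : Fin n, R * ‖v‖ := by
              refine Finset.sum_le_sum fun j _ => ?_
              rw [norm_mul, hn]
              exact mul_le_mul (h m i j) (norm_le_pi_norm v j) (norm_nonneg _) hR
          _ = n * R * ‖v‖ := by
              rw [Finset.sum_const, Finset.card_univ, Fintype.card_fin, nsmul_eq_mul]
              ring
      rw [norm_smul, norm_pow] at h5
      exact le_of_mul_le_mul_right h5 hvp
    by_contra hcon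
    rw [not_le] at hcon
    obtain ⟨m, hm⟩ := pow_unbounded_of_one_lt (n * R) hcon
    exact absurd (h4 m) (not_le.2 hm)
  have hlift : (M.map ι).charpoly ∈ Polynomial.lifts (GP.OE Ω).subtype := by
    rw [(IsAlgClosed.splits (M.map ι).charpoly).eq_prod_roots_of_monic (Matrix.charpoly_monic _)]
    refine Subsemiring.multiset_prod_mem _ _ fun p hp => ?_
    obtain ⟨a, ha, rfl⟩ := Multiset.mem_map.1 hp
    refine (Polynomial.mem_lifts _).2 ⟨Polynomial.X - Polynomial.C ⟨a, hroot a ha⟩, ?_⟩
    rw [Polynomial.map_sub, Polynomial.map_X, Polynomial.map_C]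
    rfl
  obtain ⟨q, hq⟩ := (Polynomial.mem_lifts _).1 hlift
  have h1 : (M.map ι).charpoly = M.charpoly.map (ι : E →+* Ω) := Matrix.charpoly_map M (ι : E →+* Ω)
  have h2 : ι (M.charpoly.coeff i) = (q.coeff i : Ω) := by
    have h3 := congrArg (fun p => Polynomial.coeff p i) (hq.trans h1)
    simp only [Polynomial.coeff_map] at h3
    exact h3.symm
  rw [← hn, h2]
  exact (q.coeff i).2

end Pool.Agent.Work.MP_787500_nt.SF
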