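import Mathlib
import Pool.Agent.Work.MP_787500_nt.SF.Defs

/-!
# SF/Block (size M, pure linear algebra, Mathlib only): the determinant of `1 - (block monomial matrix)` and its inverse system

Induction on the finite type `S` (`Finite.induction_empty_option` or induction on the cardinality), for all `σ`, `U`, `V`.
* Invariance under bijections `S ≃ S'` and the empty type (`det = 1`) are easy.
* `Cg` is closed under products: coefficients of a product are finite sums of products of elements of norm at most 1 (ultrametric: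
  `IsUltrametricDist`, `P Q - P' Q' = (P - P') Q + P' (Q - Q')`).
* `Option S`, with the equivalence `Option S × Fin n ≃ (S × Fin n) ⊕ Fin n`. Put `σ' = Equiv.removeNone σ`.
  - If `σ none = none`: `1 - bm σ U` is block diagonal with blocks `1 - bm σ' (U ∘ some)` and `1 - U none`
    (`Matrix.det_fromBlocks_zero₂₁` or `..₁₂`), the same for `σ⁻¹`, `V`. `Reach σ' (U ∘ some) (V ∘ some) x y M N` implies
    `Reach σ U V (some x) (some y) M N`; `Reach σ U V none none (U none) (V none)`.
  - If `σ none ≠ none`: the block at `none` is 1, `Matrix.det_fromBlocks_one₂₂` (Schur complement) gives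
    `det (1 - bm σ U) = det (1 - bm σ' U')` with `U' a = U (some a) * U none` if `some a = σ none`, `U' a = U (some a)` otherwise
    (`1 - A + B C` where `B` has the single block `- U (σ none)` and `C` the single block `- U none`). For `σ⁻¹`, `V`:
    `V' a = V (some a) * V none` if `some a = σ⁻¹ none`, `V' a = V (some a)` otherwise (`removeNone σ⁻¹ = (removeNone σ)⁻¹`).
    `Reach σ' U' V' x y M N` implies `Reach σ U V (some x) (some y) M N`: one step of `σ'` is one or two steps of `σ`
    (from `σ none` to `σ⁻¹ none` through `none`); the matrices on the way back agree.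
-/

set_option autoImplicit false
set_option linter.unusedSectionVars false

namespace Pool.Agent.Work.MP_787500_nt.SF

open Matrix Polynomial

section cg

variable {E : Type*} [NormedField E] [IsUltrametricDist E]

private theorem cg_one : Cg (1 : E[X]) 1 := by
  have h : ∀ i, ‖(1 : E[X]).coeff i‖ ≤ 1 := by
    intro i
    rw [coeff_one]
    split_ifs <;> simp
  exact ⟨h, h, fun i => by rw [sub_self, norm_zero]; exact one_pos⟩

private theorem coeff_mul_le {P Q : E[X]} (hP : ∀ i, ‖P.coeff i‖ ≤ 1) (hQ : ∀ i, ‖Q.coeff i‖ ≤ 1)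
    (i : ℕ) : ‖(P * Q).coeff i‖ ≤ 1 := by
  rw [coeff_mul]
  apply IsUltrametricDist.norm_sum_le_of_forall_le_of_nonneg zero_le_one
  intro p _
  rw [norm_mul]
  exact mul_le_one₀ (hP _) (norm_nonneg _) (hQ _)

private theorem sum_lt {ι : Type*} (s : Finset ι) (f : ι → E) (h : ∀ i ∈ s, ‖f i‖ < 1) :
    ‖∑ i ∈ s, f i‖ < 1 := by
  rcases s.eq_empty_or_nonempty with rfl | hs
  · rw [Finset.sum_empty, norm_zero]
    exact one_pos
  · obtain ⟨i, hi, hle⟩ := IsUltrametricDist.exists_norm_finsetSum_le_of_nonempty hs f
    exact hle.trans_lt (h i hi)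

private theorem coeff_mul_lt {P Q : E[X]} (hP : ∀ i, ‖P.coeff i‖ < 1) (hQ : ∀ i, ‖Q.coeff i‖ ≤ 1)
    (i : ℕ) : ‖(P * Q).coeff i‖ < 1 := by
  rw [coeff_mul]
  apply sum_lt
  intro p _
  rw [norm_mul]
  exact mul_lt_one_of_nonneg_of_lt_one_left (norm_nonneg _) (hP _) (hQ _)

private theorem cg_mul {P Q P' Q' : E[X]} (h : Cg P Q) (h' : Cg P' Q') : Cg (P * P') (Q * Q') := by
  refine ⟨coeff_mul_le h.left h'.left, coeff_mul_le h.right h'.right, fun i => ?_⟩
  have h1 : ∀ i, ‖(P - Q).coeff i‖ < 1 := fun i => by rw [coeff_sub]; exact h.sub i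
  have h2 : ∀ i, ‖(P' - Q').coeff i‖ < 1 := fun i => by rw [coeff_sub]; exact h'.sub i
  have h3 : (P * P').coeff i - (Q * Q').coeff i =
      ((P - Q) * P').coeff i + ((P' - Q') * Q).coeff i := by
    rw [← coeff_sub, ← coeff_add]
    congr 1
    ring
  rw [h3]
  exact (IsUltrametricDist.norm_add_le_max _ _).trans_lt
    (max_lt (coeff_mul_lt h1 h'.left i) (coeff_mul_lt h2 h.right i))

end cg

section opt

variable {S R : Type*} {n : ℕ}

private def eo (S : Type*) (n : ℕ) : (S × Fin n) ⊕ Fin n ≃ Option S × Fin n where
  toFun := Sum.elim (fun p => (some p.1, p.2)) (fun i => (none, i))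
  invFun := fun p => match p with
    | (some x, i) => Sum.inl (x, i)
    | (none, i) => Sum.inr i
  left_inv := by
    rintro (⟨x, i⟩ | i) <;> rfl
  right_inv := by
    rintro ⟨_ | x, i⟩ <;> rfl

private def nxt [CommRing R] (τ : Equiv.Perm (Option S))
    (W : Option S → Matrix (Fin n) (Fin n) R) (x : S) : Matrix (Fin n) (Fin n) R :=
  match τ.symm (some x) with
  | none => W (some x) * W none
  | some _ => W (some x)

private theorem nxt_none [CommRing R] {τ : Equiv.Perm (Option S)}
    {W : Option S → Matrix (Fin n) (Fin n) R} {x : S} (h : τ.symm (some x) = none) :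
    nxt τ W x = W (some x) * W none := by
  unfold nxt
  rw [h]

private theorem nxt_some [CommRing R] {τ : Equiv.Perm (Option S)}
    {W : Option S → Matrix (Fin n) (Fin n) R} {x z : S} (h : τ.symm (some x) = some z) :
    nxt τ W x = W (some x) := by
  unfold nxt
  rw [h]

private theorem rn_some {τ : Equiv.Perm (Option S)} {x z : S} (h : τ.symm (some x) = some z) :
    (Equiv.removeNone τ).symm x = z := by
  rw [Equiv.removeNone_symm]
  apply Option.some_injective
  rw [Equiv.removeNone_some _ ⟨z, h⟩, h]

private theorem rn_none {τ : Equiv.Perm (Option S)} {x : S} (h : τ.symm (some x) = none) :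
    τ.symm none = some ((Equiv.removeNone τ).symm x) := by
  rw [Equiv.removeNone_symm, Equiv.removeNone_none _ h]

private theorem det_opt_fix [Fintype S] [DecidableEq S] [CommRing R] (τ : Equiv.Perm (Option S))
    (W : Option S → Matrix (Fin n) (Fin n) R) (hτ : τ none = none) :
    (1 - bm τ W).det = (1 - bm (Equiv.removeNone τ) (nxt τ W)).det * (1 - W none).det := by
  have hτ' : τ.symm none = none := by rw [Equiv.symm_apply_eq, hτ]
  have hs : ∀ x : S, ∃ z, τ.symm (some x) = some z := by
    intro x
    rcases h : τ.symm (some x) with _ | z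
    · rw [Equiv.symm_apply_eq, hτ] at h
      exact absurd h (by simp)
    · exact ⟨z, rfl⟩
  rw [← Matrix.det_submatrix_equiv_self (eo S n) (1 - bm τ W)]
  have h1 : (1 - bm τ W).submatrix (eo S n) (eo S n) =
      fromBlocks (1 - bm (Equiv.removeNone τ) (nxt τ W)) 0 0 (1 - W none) := by
    ext p q
    rcases p with ⟨x, i⟩ | i <;> rcases q with ⟨y, j⟩ | j
    · obtain ⟨z, hz⟩ := hs x
      simp only [submatrix_apply, fromBlocks_apply₁₁, eo, Equiv.coe_fn_mk, Sum.elim_inl,
        Matrix.sub_apply, Matrix.one_apply, bm, hz, rn_some hz, nxt_some hz, Prod.mk.injEq,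
        Option.some.injEq]
    · obtain ⟨z, hz⟩ := hs x
      simp [submatrix_apply, fromBlocks_apply₁₂, eo, Matrix.sub_apply, Matrix.one_apply, bm, hz]
    · simp [submatrix_apply, fromBlocks_apply₂₁, eo, Matrix.sub_apply, Matrix.one_apply, bm, hτ']
    · simp [submatrix_apply, fromBlocks_apply₂₂, eo, Matrix.sub_apply, Matrix.one_apply, bm, hτ']
  rw [h1, det_fromBlocks_zero₂₁]

private theorem det_opt_mov [Fintype S] [DecidableEq S] [CommRing R] (τ : Equiv.Perm (Option S))
    (W : Option S → Matrix (Fin n) (Fin n) R) (hτ : τ none ≠ none) :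
    (1 - bm τ W).det = (1 - bm (Equiv.removeNone τ) (nxt τ W)).det := by
  have hτ' : τ.symm none ≠ none := fun h => hτ (by rw [Equiv.symm_apply_eq] at h; exact h.symm)
  obtain ⟨w, hw⟩ := Option.ne_none_iff_exists'.1 hτ'
  rw [← Matrix.det_submatrix_equiv_self (eo S n) (1 - bm τ W)]
  set A : Matrix (S × Fin n) (S × Fin n) R :=
    fun p q => (1 - bm τ W) (some p.1, p.2) (some q.1, q.2) with hA
  set B : Matrix (S × Fin n) (Fin n) R :=
    fun p j => if τ.symm (some p.1) = none then -(W (some p.1) p.2 j) else 0 with hB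
  set C : Matrix (Fin n) (S × Fin n) R :=
    fun i q => if some w = some q.1 then -(W none i q.2) else 0 with hC
  have h1 : (1 - bm τ W).submatrix (eo S n) (eo S n) = fromBlocks A B C 1 := by
    ext p q
    rcases p with ⟨x, i⟩ | i <;> rcases q with ⟨y, j⟩ | j
    · rfl
    · simp only [submatrix_apply, fromBlocks_apply₁₂, eo, Equiv.coe_fn_mk, Sum.elim_inl,
        Sum.elim_inr, Matrix.sub_apply, Matrix.one_apply, bm, hB, Prod.mk.injEq, reduceCtorEq,
        false_and, if_false, zero_sub]
      split_ifs <;> simp
    · simp only [submatrix_apply, fromBlocks_apply₂₁, eo, Equiv.coe_fn_mk, Sum.elim_inl,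
        Sum.elim_inr, Matrix.sub_apply, Matrix.one_apply, bm, hC, Prod.mk.injEq, reduceCtorEq,
        false_and, if_false, zero_sub, hw]
      split_ifs <;> simp
    · simp [submatrix_apply, fromBlocks_apply₂₂, eo, Matrix.sub_apply, Matrix.one_apply, bm, hw]
  rw [h1, det_fromBlocks_one₂₂]
  congr 1
  ext ⟨x, i⟩ ⟨y, j⟩
  have hBC : (B * C) (x, i) (y, j) =
      if τ.symm (some x) = none then (if w = y then (W (some x) * W none) i j else 0) else 0 := by
    rw [Matrix.mul_apply]
    simp only [hB, hC, Option.some.injEq]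
    split_ifs with h2 h3
    · rw [Matrix.mul_apply]
      exact Finset.sum_congr rfl fun k _ => by ring
    all_goals simp
  rw [Matrix.sub_apply, hBC]
  simp only [hA, Matrix.sub_apply, Matrix.one_apply, bm, Prod.mk.injEq, Option.some.injEq]
  rcases h : τ.symm (some x) with _ | z
  · have h4 := rn_none h
    rw [hw, Option.some.injEq] at h4
    rw [← h4, nxt_none h]
    simp
  · rw [rn_some h, nxt_some h]
    simp

private theorem reach_opt [CommRing R] {σ : Equiv.Perm (Option S)}
    {U V : Option S → Matrix (Fin n) (Fin n) R} {x y : S} {M N : Matrix (Fin n) (Fin n) R}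
    (h : Reach (Equiv.removeNone σ) (nxt σ U) (nxt σ⁻¹ V) x y M N) :
    Reach σ U V (some x) (some y) M N := by
  have hinv : ∀ a, (σ⁻¹).symm a = σ a := fun a => rfl
  induction h with
  | base =>
    rcases hx : σ.symm (some x) with _ | z
    · have h1 := rn_none hx
      have h2 : (σ⁻¹).symm (some ((Equiv.removeNone σ).symm x)) = none := by
        rw [hinv, ← h1, Equiv.apply_symm_apply]
      rw [nxt_none hx, nxt_none h2]
      have h3 := Reach.base (U := U) (V := V) (σ := σ) (some x)
      rw [hx] at h3
      have h4 := h3.step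
      rw [h1] at h4
      exact h4
    · have h1 := rn_some hx
      have h2 : (σ⁻¹).symm (some z) = some x := by
        rw [hinv, ← hx, Equiv.apply_symm_apply]
      rw [h1, nxt_some hx, nxt_some h2]
      have h3 := Reach.base (U := U) (V := V) (σ := σ) (some x)
      rw [hx] at h3
      exact h3
  | @step y M N h ih =>
    rcases hx : σ.symm (some y) with _ | z
    · have h1 := rn_none hx
      have h2 : (σ⁻¹).symm (some ((Equiv.removeNone σ).symm y)) = none := by
        rw [hinv, ← h1, Equiv.apply_symm_apply]
      rw [nxt_none hx, nxt_none h2]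
      have h3 := ih.step
      rw [hx] at h3
      have h4 := h3.step
      rw [h1] at h4
      rw [Matrix.mul_assoc, ← Matrix.mul_assoc] at h4
      rw [← Matrix.mul_assoc, Matrix.mul_assoc (V _)]
      simpa only [Matrix.mul_assoc] using h4
    · have h1 := rn_some hx
      have h2 : (σ⁻¹).symm (some z) = some y := by
        rw [hinv, ← hx, Equiv.apply_symm_apply]
      rw [h1, nxt_some hx, nxt_some h2]
      have h3 := ih.step
      rw [hx] at h3
      exact h3

private theorem bm_equiv {T : Type*} [DecidableEq S] [DecidableEq T] [CommRing R] (e : S ≃ T)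
    (σ : Equiv.Perm T) (U : T → Matrix (Fin n) (Fin n) R) :
    (1 - bm σ U).submatrix (e.prodCongr (Equiv.refl (Fin n))) (e.prodCongr (Equiv.refl (Fin n))) =
      1 - bm ((e.trans σ).trans e.symm) (U ∘ e) := by
  ext ⟨x, i⟩ ⟨y, j⟩
  simp only [submatrix_apply, Equiv.prodCongr_apply, Prod.map_apply, Equiv.refl_apply,
    Matrix.sub_apply, Matrix.one_apply, bm, Prod.mk.injEq, EmbeddingLike.apply_eq_iff_eq,
    Equiv.symm_trans_apply, Equiv.symm_symm, Function.comp_apply]
  congr 2
  exact propext (Equiv.symm_apply_eq e).symm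

private theorem reach_equiv {T : Type*} [CommRing R] (e : S ≃ T) {σ : Equiv.Perm T}
    {U V : T → Matrix (Fin n) (Fin n) R} {x y : S} {M N : Matrix (Fin n) (Fin n) R}
    (h : Reach ((e.trans σ).trans e.symm) (U ∘ e) (V ∘ e) x y M N) :
    Reach σ U V (e x) (e y) M N := by
  have hinv : ∀ a, e (((e.trans σ).trans e.symm).symm a) = σ.symm (e a) := fun a => by
    simp
  induction h with
  | base =>
    have h3 := Reach.base (U := U) (V := V) (σ := σ) (e x)
    rw [← hinv] at h3
    exact h3
  | @step y M N h ih =>
    have h3 := ih.step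
    rw [← hinv] at h3
    exact h3

end opt

private def PP (E : Type*) [NormedField E] (n : ℕ) (S : Type*) : Prop :=
  ∀ [Fintype S] [DecidableEq S] (σ : Equiv.Perm S) (U V : S → Matrix (Fin n) (Fin n) E[X]),
    (∀ x M N, Reach σ U V x x M N → Cg (1 - M).det (1 - N).det) →
      Cg (1 - bm σ U).det (1 - bm σ⁻¹ V).det

theorem cg_bm {E : Type*} [NormedField E] [IsUltrametricDist E] {n : ℕ} {S : Type*} [Fintype S]
    [DecidableEq S] (σ : Equiv.Perm S) (U V : S → Matrix (Fin n) (Fin n) E[X])
    (h : ∀ x M N, Reach σ U V x x M N → Cg (1 - M).det (1 - N).det) :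
    Cg (1 - bm σ U).det (1 - bm σ⁻¹ V).det := by
  have key : PP E n S := by
    refine Finite.induction_empty_option (P := PP E n) ?_ ?_ ?_ S
    · intro α β e hα _ _ σ U V h
      classical
      have : Fintype α := Fintype.ofEquiv β e.symm
      have h1 := hα ((e.trans σ).trans e.symm) (U ∘ e) (V ∘ e) fun x M N hr =>
        h (e x) M N (reach_equiv e hr)
      have h2 : ((e.trans σ).trans e.symm)⁻¹ = (e.trans σ⁻¹).trans e.symm := by
        ext a
        rfl
      rw [h2, ← bm_equiv, ← bm_equiv, det_submatrix_equiv_self, det_submatrix_equiv_self] at h1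
      exact h1
    · intro _ _ σ U V _
      rw [det_isEmpty, det_isEmpty]
      exact cg_one
    · intro α _ hα iF iD σ U V h
      classical
      have e1 : iF = instFintypeOption := Subsingleton.elim _ _
      have e2 : iD = fun a b => Option.instDecidableEq a b := Subsingleton.elim _ _
      subst e1 e2
      have h1 := hα (Equiv.removeNone σ) (nxt σ U) (nxt σ⁻¹ V) fun x M N hr =>
        h (some x) M N (reach_opt hr)
      have h2 : (Equiv.removeNone σ)⁻¹ = Equiv.removeNone σ⁻¹ := by
        change (Equiv.removeNone σ).symm = _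
        rw [Equiv.removeNone_symm]
        rfl
      rw [h2] at h1
      by_cases h0 : σ none = none
      · have h0' : σ⁻¹ none = none := by
          change σ.symm none = none
          rw [Equiv.symm_apply_eq, h0]
        have h3 := det_opt_fix σ U h0
        have h4 := det_opt_fix σ⁻¹ V h0'
        have h5 : Cg (1 - U none).det (1 - V none).det := by
          have h6 := Reach.base (U := U) (V := V) (σ := σ) none
          have h7 : σ.symm none = none := h0'
          rw [h7] at h6
          exact h none _ _ h6
        have h8 := cg_mul h1 h5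
        rw [← h3, ← h4] at h8
        exact h8
      · have h0' : σ⁻¹ none ≠ none := fun h' => h0 (by
          have h'' : σ.symm none = none := h'
          rw [Equiv.symm_apply_eq] at h''
          exact h''.symm)
        have h3 := det_opt_mov σ U h0
        have h4 := det_opt_mov σ⁻¹ V h0'
        rw [← h3, ← h4] at h1
        exact h1
  exact key σ U V h

end Pool.Agent.Work.MP_787500_nt.SF
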