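import Mathlib
import Pool.Agent.Work.MP_787500_nt.SF.Block
import Pool.Agent.Work.MP_787500_nt.SF.Bdd
import Pool.Agent.Work.MP_787500_nt.SH.IndA
import Pool.Agent.Work.MP_787500_nt.RB.FDefs

/-!
# SF/ResInd (size M): a representation induced from a residually self-dual representation is residually self-dual

Fix `g`. `S = G ⧸ H`, `σ = MulAction.toPerm g` (`σ⁻¹ x = g⁻¹ • x`), `U x = X • (τ (r.rs g x)).map C`, `V x = X • (τ (r.rs g⁻¹ x)).map C`. After reindexing
by `r.en` the matrix `X • (indM r τ g).map C` is `bm σ U`, and `X • (indM r τ g⁻¹).map C` is `bm σ⁻¹ V` (definition of `indM`). So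
`(1 - bm σ U).det` is `(indM r τ g).charpolyRev` (`Matrix.charpolyRev`), the same for `g⁻¹`; apply `cg_bm`.
* Invariant of `Reach σ U V x y M N`: there are `w ≥ 1` and `h : H` with `M = X ^ w • (τ h).map C` and `N = X ^ w • (τ h⁻¹).map C`
  (`r.rs g⁻¹ (g⁻¹ • x) = (r.rs g x)⁻¹`).
* `(1 - X ^ w • (τ h).map C).det` is `expand E w (τ h).charpolyRev` (`Polynomial.expand`, `coeff_expand`).
* `Cg (τ h).charpolyRev (τ h⁻¹).charpolyRev`: the coefficient `i ≤ n` of `charpolyRev` is the coefficient `n - i` of `charpoly`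
  (`Matrix.reverse_charpoly`, `Polynomial.coeff_reverse`, `natDegree` of `charpoly` is `n`), norms at most 1 by `coeff_le` (`τ h ^ k = τ (h ^ k)`), the difference by `h`.
* back: the same for `indR r τ g` (size `m`).
-/

set_option autoImplicit false
set_option linter.unusedSectionVars false

namespace Pool.Agent.Work.MP_787500_nt.SF

open Matrix Polynomial
open Pool.Agent.Work.MP_787500_nt.SH (Rep indR indM indR_apply)

private theorem rev_coeff {E : Type*} [NormedField E] {n : ℕ} (M : Matrix (Fin n) (Fin n) E)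
    (i : ℕ) : M.charpolyRev.coeff i = M.charpoly.coeff (revAt n i) := by
  rw [← reverse_charpoly, coeff_reverse, charpoly_natDegree_eq_dim, Fintype.card_fin]

private theorem coeff_rev {E : Type*} [NormedField E] {n : ℕ} (M : Matrix (Fin n) (Fin n) E)
    (i : ℕ) : M.charpoly.coeff i = M.charpolyRev.coeff (revAt n i) := by
  rw [rev_coeff, revAt_invol]

private theorem det_expand {E : Type*} [NormedField E] {n : ℕ} (A : Matrix (Fin n) (Fin n) E)
    (w : ℕ) : (1 - (X : E[X]) ^ w • A.map C).det = expand E w A.charpolyRev := by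
  rw [charpolyRev, AlgHom.map_det]
  congr 1
  rw [map_sub, map_one]
  congr 1
  refine Matrix.ext fun i j => ?_
  show X ^ w * C (A i j) = expand E w (X * C (A i j))
  rw [map_mul, expand_X, expand_C]

private theorem cg_expand {E : Type*} [NormedField E] {P Q : E[X]} (h : Cg P Q) {w : ℕ}
    (hw : 1 ≤ w) : Cg (expand E w P) (expand E w Q) := by
  refine ⟨fun i => ?_, fun i => ?_, fun i => ?_⟩
  · rw [coeff_expand hw]
    split_ifs
    · exact h.left _
    · simp
  · rw [coeff_expand hw]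
    split_ifs
    · exact h.right _
    · simp
  · rw [coeff_expand hw, coeff_expand hw]
    split_ifs
    · exact h.sub _
    · simp

private theorem rs_inv {G : Type*} [Group G] {H : Subgroup G} {n m : ℕ} (r : Rep H n m) (g : G)
    (x : G ⧸ H) : r.rs g⁻¹ (g⁻¹ • x) = (r.rs g x)⁻¹ := by
  apply Subtype.ext
  show (r.s (g⁻¹ • x))⁻¹ * g⁻¹ * r.s ((g⁻¹)⁻¹ • g⁻¹ • x) =
    ((r.s x)⁻¹ * g * r.s (g⁻¹ • x))⁻¹
  rw [inv_smul_smul]
  group

private theorem reach_inv {G : Type*} [Group G] {H : Subgroup G} {E : Type*} [NormedField E]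
    {n m : ℕ} (r : Rep H n m) (τ : H →* Matrix (Fin n) (Fin n) E) (g : G)
    {x y : G ⧸ H} {M N : Matrix (Fin n) (Fin n) E[X]}
    (h : Reach (MulAction.toPerm g : Equiv.Perm (G ⧸ H))
      (fun x => (X : E[X]) • (τ (r.rs g x)).map C) (fun x => (X : E[X]) • (τ (r.rs g⁻¹ x)).map C)
      x y M N) :
    ∃ w : ℕ, 1 ≤ w ∧ ∃ a : H, M = (X : E[X]) ^ w • (τ a).map C ∧
      N = (X : E[X]) ^ w • (τ a⁻¹).map C := by
  induction h with
  | base =>
    refine ⟨1, le_rfl, r.rs g x, ?_, ?_⟩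
    · rw [pow_one]
    · rw [pow_one]
      show (X : E[X]) • (τ (r.rs g⁻¹ (g⁻¹ • x))).map C = _
      rw [rs_inv]
  | @step y M N _ ih =>
    obtain ⟨w, hw, a, hM, hN⟩ := ih
    refine ⟨w + 1, by omega, a * r.rs g y, ?_, ?_⟩
    · rw [hM, map_mul, Matrix.map_mul, smul_mul_smul_comm, pow_succ]
    · rw [hN]
      show (X : E[X]) • (τ (r.rs g⁻¹ (g⁻¹ • y))).map C * (X : E[X]) ^ w • (τ a⁻¹).map C = _
      rw [rs_inv, _root_.mul_inv_rev, map_mul, Matrix.map_mul, smul_mul_smul_comm, pow_succ']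

private theorem ind_rev {G : Type*} [Group G] {H : Subgroup G} [Fintype (G ⧸ H)]
    [DecidableEq (G ⧸ H)] {E : Type*} [NormedField E]
    {n m : ℕ} (r : Rep H n m) (τ : H →* Matrix (Fin n) (Fin n) E) (g : G)
    (σ : Equiv.Perm (G ⧸ H)) (hσ : ∀ x, σ.symm x = g⁻¹ • x) :
    (indR r τ g).charpolyRev =
      (1 - bm σ (fun x => (X : E[X]) • (τ (r.rs g x)).map C)).det := by
  rw [charpolyRev, ← det_submatrix_equiv_self r.en]
  congr 1
  refine Matrix.ext fun p q => ?_
  have e1 : (1 : Matrix (Fin m) (Fin m) E[X]) (r.en p) (r.en q) =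
      (1 : Matrix ((G ⧸ H) × Fin n) ((G ⧸ H) × Fin n) E[X]) p q := by
    rw [one_apply, one_apply]
    simp only [EmbeddingLike.apply_eq_iff_eq]
  show (1 : Matrix (Fin m) (Fin m) E[X]) (r.en p) (r.en q) -
      (X : E[X]) * C (indM r τ g (r.en p) (r.en q)) =
    (1 : Matrix ((G ⧸ H) × Fin n) ((G ⧸ H) × Fin n) E[X]) p q -
      if σ.symm p.1 = q.1 then ((X : E[X]) • (τ (r.rs g p.1)).map C) p.2 q.2 else 0
  rw [e1]
  congr 1
  unfold indM
  rw [Equiv.symm_apply_apply, Equiv.symm_apply_apply, hσ]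
  by_cases hpq : g⁻¹ • p.1 = q.1
  · rw [if_pos hpq, if_pos hpq]
    rfl
  · rw [if_neg hpq, if_neg hpq, map_zero, mul_zero]

theorem resSelfDual_ind {G : Type*} [Group G] {H : Subgroup G} [Finite (G ⧸ H)] {E : Type*}
    [NormedField E] [NormedAlgebra ℚ_[2] E] [FiniteDimensional ℚ_[2] E] {n m : ℕ} (r : Rep H n m)
    {τ : H →* Matrix (Fin n) (Fin n) E} {R : ℝ} (hR : ∀ h i j, ‖τ h i j‖ ≤ R)
    (h : Parity.ResSelfDual τ) : Parity.ResSelfDual (indR r τ) := by
  classical
  have := Fintype.ofFinite (G ⧸ H)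
  have hu := Gn.ultra 2 E
  have hc : ∀ (a : H) (i : ℕ), ‖(τ a).charpoly.coeff i‖ ≤ 1 := fun a i =>
    coeff_le (R := R) (fun k p q => by rw [← map_pow]; exact hR _ p q) i
  have hcg : ∀ a : H, Cg (τ a).charpolyRev (τ a⁻¹).charpolyRev := by
    intro a
    refine ⟨fun i => ?_, fun i => ?_, fun i => ?_⟩
    · rw [rev_coeff]
      exact hc a _
    · rw [rev_coeff]
      exact hc a⁻¹ _
    · rw [rev_coeff, rev_coeff, norm_sub_rev]
      exact h a _
  intro g i
  have h1 := cg_bm (MulAction.toPerm g : Equiv.Perm (G ⧸ H))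
    (fun x => (X : E[X]) • (τ (r.rs g x)).map C) (fun x => (X : E[X]) • (τ (r.rs g⁻¹ x)).map C)
    (by
      intro x M N hr
      obtain ⟨w, hw, a, hM, hN⟩ := reach_inv r τ g hr
      rw [hM, hN, det_expand, det_expand]
      exact cg_expand (hcg a) hw)
  rw [← ind_rev r τ g (MulAction.toPerm g : Equiv.Perm (G ⧸ H)) (fun x => rfl),
    ← ind_rev r τ g⁻¹ (MulAction.toPerm g : Equiv.Perm (G ⧸ H))⁻¹ (fun x => by
      rw [inv_inv]
      rfl)] at h1
  rw [coeff_rev, coeff_rev, norm_sub_rev]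
  exact h1.sub _

end Pool.Agent.Work.MP_787500_nt.SF
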