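import Mathlib
import Pool.Agent.Work.MP_787500_nt.SH.IndA

/-!
# SF/Trace: the condition on the traces for an induced representation
-/

set_option autoImplicit false
set_option linter.unusedSectionVars false

namespace Pool.Agent.Work.MP_787500_nt.SF

open Matrix
open Pool.Agent.Work.MP_787500_nt.SH (Rep indR indM indR_apply)

variable {G : Type*} [Group G] {H : Subgroup G} {E : Type*} [NormedField E] {n m : ℕ}

open scoped Classical in
/-- the trace of the matrices of the induced representation -/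
theorem trace_indM [Fintype (G ⧸ H)] (r : Rep H n m) (τ : H →* Matrix (Fin n) (Fin n) E) (g : G) :
    (indM r τ g).trace = ∑ x : G ⧸ H, if g⁻¹ • x = x then (τ (r.rs g x)).trace else 0 := by
  have h1 : (indM r τ g).trace = ∑ p : (G ⧸ H) × Fin n, indM r τ g (r.en p) (r.en p) := by
    rw [Matrix.trace, ← Equiv.sum_comp r.en]
    rfl
  rw [h1, Fintype.sum_prod_type]
  refine Finset.sum_congr rfl fun x _ => ?_
  have h2 : ∀ i : Fin n, indM r τ g (r.en (x, i)) (r.en (x, i)) =
      if g⁻¹ • x = x then τ (r.rs g x) i i else 0 := by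
    intro i
    unfold indM
    rw [Equiv.symm_apply_apply]
  rw [Finset.sum_congr rfl fun i _ => h2 i]
  by_cases h : g⁻¹ • x = x
  · rw [if_pos h]
    refine Finset.sum_congr rfl fun i _ => ?_
    rw [if_pos h]
    rfl
  · rw [if_neg h]
    refine Finset.sum_eq_zero fun i _ => ?_
    rw [if_neg h]

theorem trace_ind [Finite (G ⧸ H)] [IsUltrametricDist E] (r : Rep H n m)
    {τ : H →* Matrix (Fin n) (Fin n) E}
    (h : ∀ g, ‖(τ g⁻¹).trace - (τ g).trace‖ < 1) (g : G) :
    ‖(indR r τ g⁻¹).trace - (indR r τ g).trace‖ < 1 := by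
  classical
  let _ : Fintype (G ⧸ H) := Fintype.ofFinite _
  rw [indR_apply, indR_apply, trace_indM, trace_indM, ← Finset.sum_sub_distrib]
  have h1 : ∀ x : G ⧸ H, ‖(if g⁻¹⁻¹ • x = x then (τ (r.rs g⁻¹ x)).trace else 0) -
      (if g⁻¹ • x = x then (τ (r.rs g x)).trace else 0)‖ < 1 := by
    intro x
    by_cases hx : g⁻¹ • x = x
    · have hx' : g • x = x := by
        conv_lhs => rw [← hx]
        rw [smul_inv_smul]
      rw [inv_inv, if_pos hx', if_pos hx]
      have h2 : r.rs g⁻¹ x = (r.rs g x)⁻¹ := by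
        apply Subtype.ext
        show (r.s x)⁻¹ * g⁻¹ * r.s (g⁻¹⁻¹ • x) = ((r.s x)⁻¹ * g * r.s (g⁻¹ • x))⁻¹
        rw [inv_inv, hx', hx]
        group
      rw [h2]
      exact h _
    · have hx' : ¬ g⁻¹⁻¹ • x = x := by
        rw [inv_inv]
        intro h2
        apply hx
        conv_lhs => rw [← h2]
        rw [inv_smul_smul]
      rw [if_neg hx', if_neg hx, sub_zero, norm_zero]
      exact one_pos
  have h2 : ∀ s : Finset (G ⧸ H), ‖∑ x ∈ s, ((if g⁻¹⁻¹ • x = x then (τ (r.rs g⁻¹ x)).trace else 0) -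
      (if g⁻¹ • x = x then (τ (r.rs g x)).trace else 0))‖ < 1 := by
    intro s
    induction s using Finset.induction_on with
    | empty => rw [Finset.sum_empty, norm_zero]; exact one_pos
    | insert a s ha ih =>
      rw [Finset.sum_insert ha]
      exact (IsUltrametricDist.norm_add_le_max _ _).trans_lt (max_lt (h1 a) ih)
  exact h2 _

end Pool.Agent.Work.MP_787500_nt.SF
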