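import Mathlib
import Pool.Agent.Work.MP_787500_nt.PA.Defs

/-!
# SF/Conj0 (size S): complex conjugation

`K` is a number field, so there is an embedding `φ : AlgebraicClosure K →+* ℂ` (algebraic over `ℚ`; `IsAlgClosed.lift`). Its image is the set of the algebraic
numbers (`φ` is an embedding of an algebraically closed field that is algebraic over `ℚ`), stable under complex conjugation. Either restrict the conjugation to the
image, or: both `φ` and `conj ∘ φ` have the same range, so `c = φ⁻¹ ∘ conj ∘ φ` (`RingEquiv.ofBijective` or `RingHom.rangeRestrict`). `c (c x) = x`.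
`φ(s)² = -D < 0`, so `φ(s)` is purely imaginary and `conj (φ s) = - φ s`.
-/

set_option autoImplicit false
set_option linter.unusedSectionVars false

namespace Pool.Agent.Work.MP_787500_nt.SF

theorem exists_conj {K : Type*} [Field K] [NumberField K] {D : ℕ} (hD : 0 < D) {s : K}
    (hs : s ^ 2 = -(D : K)) :
    ∃ c : AlgebraicClosure K ≃+* AlgebraicClosure K, PA.IsConj s c := by
  classical
  haveI : Algebra.IsAlgebraic ℚ (AlgebraicClosure K) := Algebra.IsAlgebraic.trans ℚ K _
  haveI : IsAlgClosure ℚ (AlgebraicClosure K) := ⟨inferInstance, inferInstance⟩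
  haveI : Normal ℚ (AlgebraicClosure K) := IsAlgClosure.normal ℚ _
  let φ : AlgebraicClosure K →ₐ[ℚ] ℂ := IsAlgClosed.lift
  letI : Algebra (AlgebraicClosure K) ℂ := φ.toRingHom.toAlgebra
  have hφ : ∀ x, algebraMap (AlgebraicClosure K) ℂ x = φ x := fun _ => rfl
  haveI : IsScalarTower ℚ (AlgebraicClosure K) ℂ :=
    IsScalarTower.of_algebraMap_eq (fun x => (φ.commutes x).symm)
  let χ : ℂ ≃ₐ[ℚ] ℂ := Complex.conjAe.restrictScalars ℚ
  have hχ : ∀ z, χ z = (starRingEnd ℂ) z := fun _ => rfl
  let c : AlgebraicClosure K ≃ₐ[ℚ] AlgebraicClosure K := χ.restrictNormal (AlgebraicClosure K)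
  have hc : ∀ x, φ (c x) = (starRingEnd ℂ) (φ x) := fun x =>
    AlgEquiv.restrictNormal_commutes χ (AlgebraicClosure K) x
  refine ⟨c.toRingEquiv, ?_, ?_⟩
  · intro x
    apply φ.injective
    show φ (c (c x)) = φ x
    rw [hc, hc, Complex.conj_conj]
  · apply φ.injective
    show φ (c (algebraMap K (AlgebraicClosure K) s)) = φ (-algebraMap K (AlgebraicClosure K) s)
    rw [hc, map_neg]
    obtain ⟨z, hz⟩ : ∃ z, z = φ (algebraMap K (AlgebraicClosure K) s) := ⟨_, rfl⟩
    rw [← hz]
    have h1 : z ^ 2 = -(D : ℂ) := by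
      rw [hz, ← map_pow, ← map_pow, hs]
      simp
    have hre := congrArg Complex.re h1
    have him := congrArg Complex.im h1
    simp only [sq, Complex.mul_re, Complex.mul_im, Complex.neg_re, Complex.neg_im,
      Complex.natCast_re, Complex.natCast_im, neg_zero] at hre him
    have hD' : (0 : ℝ) < D := by exact_mod_cast hD
    have h2 : z.re = 0 := by
      by_contra h
      have h3 : z.im = 0 := by
        have : z.re * z.im = 0 := by linarith
        rcases mul_eq_zero.1 this with h4 | h4
        · exact absurd h4 h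
        · exact h4
      rw [h3] at hre
      nlinarith [mul_self_nonneg z.re]
    apply Complex.ext
    · simp [h2]
    · simp

end Pool.Agent.Work.MP_787500_nt.SF
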